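import Pool.Agent.Helper68.QC.St3

/-!
# PART M, module EXS: existence
-/

open MeasureTheory Set Filter Topology Complex
open scoped ContDiff ComplexConjugate ENNReal

namespace Pool.Agent.Helper68.QCM

open Pool.Agent.Helper68.QC

lemma lu_tendsto {ι : Type} {F : Filter ι} {W : ι → ℂ ≃ₜ ℂ} {w : ℂ ≃ₜ ℂ} (h : LU F W w) (z : ℂ) :
    Tendsto (fun i => W i z) F (𝓝 (w z)) ∧ Tendsto (fun i => (W i).symm z) F (𝓝 (w.symm z)) :=
  ⟨(h ‖z‖).1.tendsto_at (by simp), (h ‖z‖).2.tendsto_at (by simp)⟩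

lemma lu_symm {ι : Type} {F : Filter ι} {W : ι → ℂ ≃ₜ ℂ} {w : ℂ ≃ₜ ℂ} (h : LU F W w) :
    LU F (fun i => (W i).symm) w.symm := fun R => ⟨(h R).2, by
      have := (h R).1
      simpa using this⟩

lemma qs_symm (hQIN : StQIN) {k : ℝ} (hk : k < 1) {w : ℂ ≃ₜ ℂ} (h : QS k w) : QS k w.symm := by
  obtain ⟨V, hV, hq⟩ := hQIN k hk w h
  have : V = w := Homeomorph.ext hV
  rwa [this] at hq

theorem pEXS (hSMO : StSMO) (hHPS : StHPS) (hEQS : StEQS) (hLIM : StLIM) (hQSD : StQSD)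
    (hQIN : StQIN) (hLQD : StLQD) (hLBE : StLBE) : StEXS := by
  intro k hk0 hk μ hμ
  obtain ⟨s1, s2, s3⟩ := hSMO
  have hW : ∀ n : ℕ, ∃ W : ℂ ≃ₜ ℂ, QS k W ∧ W 0 = 0 ∧ W 1 = 1 ∧
      ∀ z, dzb W z = sm n μ z * dz W z := by
    intro n
    obtain ⟨t1, t2, t3, t4⟩ := s1 n k μ hμ.meas hμ.le
    obtain ⟨W, hW, -⟩ := hHPS k hk0 hk (2 * ((n : ℝ) + 1)) (sm n μ) (fun _ => 0) univ
      (by positivity) t1 contDiff_const t3 t4 (fun _ => rfl) (fun _ => rfl) isOpen_univ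
      (fun t _ z => by simpa using t2 z)
    obtain ⟨h1, h2, h3, h4⟩ := hW 0 (mem_univ _)
    exact ⟨W 0, h1, h2, h3, fun z => by simpa using h4 z⟩
  choose W hQS h0 h1 hbel using hW
  set F : Ultrafilter ℕ := hyperfilter ℕ with hF
  have hFle : (F : Filter ℕ) ≤ atTop := Nat.hyperfilter_le_atTop
  obtain ⟨w, hLU⟩ := hLIM ℕ F W
    (fun R => by
      obtain ⟨M, hM⟩ := (hEQS k hk0 hk R).1
      exact ⟨M, fun n z hz => hM (W n) (hQS n) (h0 n) (h1 n) z hz⟩)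
    (fun R ε hε => by
      obtain ⟨δ, hδ, h⟩ := (hEQS k hk0 hk R).2 ε hε
      exact ⟨δ, hδ, fun n p q hp hq hpq => h (W n) (hQS n) (h0 n) (h1 n) p q hp hq hpq⟩)
  have hbd : ∀ R : ℝ, ∃ M : ℝ, ∀ n, ∀ z, ‖z‖ ≤ R → ‖W n z‖ ≤ M := fun R => by
    obtain ⟨M, hM⟩ := (hEQS k hk0 hk R).1
    exact ⟨M, fun n z hz => (hM (W n) (hQS n) (h0 n) (h1 n) z hz).1⟩
  have hbd' : ∀ R : ℝ, ∃ M : ℝ, ∀ n, ∀ z, ‖z‖ ≤ R → ‖(W n).symm z‖ ≤ M := fun R => by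
    obtain ⟨M, hM⟩ := (hEQS k hk0 hk R).1
    exact ⟨M, fun n z hz => (hM (W n) (hQS n) (h0 n) (h1 n) z hz).2⟩
  have hw0 : w 0 = 0 := by
    have t := (lu_tendsto hLU 0).1
    simp only [h0] at t
    exact tendsto_nhds_unique t tendsto_const_nhds
  have hw1 : w 1 = 1 := by
    have t := (lu_tendsto hLU 1).1
    simp only [h1] at t
    exact tendsto_nhds_unique t tendsto_const_nhds
  have hQD : ∀ n, QD k (W n) (dz (W n)) (dzb (W n)) := fun n => hQSD k hk (W n) (hQS n)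
  obtain ⟨hEB, a, b, ham, hbm, hq, hwa, hwb⟩ := hLQD k ℕ F W w (fun n => dz (W n))
    (fun n => dzb (W n)) hk0 hk hQD hLU hbd
  have hbel' : ∀ᵐ z, b z = μ z * a z := by
    refine hLBE k ℕ F (fun n => sm n μ) (fun n => dz (W n)) (fun n => dzb (W n)) μ a b
      (fun n => ?_) hμ (fun R => ?_) (fun n => (hQD n).wd.l2a) (fun n => (hQD n).wd.l2b) hEB
      (fun n => ae_of_all _ (hbel n)) hq.wd.l2a hq.wd.l2b hwa hwb
    · obtain ⟨t1, t2, -, -⟩ := s1 n k μ hμ.meas hμ.le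
      exact ⟨t1.continuous.measurable, t2⟩
    · exact (s3 k μ hμ.meas hμ.le R).mono_left hFle
  have hQD' : ∀ n, QD k (W n).symm (dz (W n).symm) (dzb (W n).symm) := fun n =>
    hQSD k hk (W n).symm (qs_symm hQIN hk (hQS n))
  obtain ⟨-, a', b', -, -, hq', -, -⟩ := hLQD k ℕ F (fun n => (W n).symm) w.symm
    (fun n => dz (W n).symm) (fun n => dzb (W n).symm) hk0 hk hQD' (lu_symm hLU) hbd'
  exact ⟨w, hw0, hw1, ⟨a, b, ham, hbm, hq, hbel'⟩, ⟨⟨a, b, hq⟩, ⟨a', b', hq'⟩⟩, F, W,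
    fun n => ⟨hQS n, h0 n, h1 n⟩, hLU⟩

end Pool.Agent.Helper68.QCM
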