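import Pool.Agent.Helper68.QC.St4

/-!
# PART M, module IF1
-/

open MeasureTheory Set Filter Topology Complex
open scoped ContDiff ComplexConjugate ENNReal

namespace Pool.Agent.Helper68.QCM

open Pool.Agent.Helper68.QC

theorem pIF1 : StIF1 := by
  intro hN hF hU
  refine ⟨fun k hk μ hμ => (hN k hk μ hμ).1, ?_, ?_⟩
  · intro k hk μ hμ U f hUo hs
    obtain ⟨_, ⟨a, b, _, _, hq, hb⟩, _⟩ := hN k hk μ hμ
    exact hF k (nq μ) a b μ hq hb U f hUo hs
  · intro k hk μ hμ w h0 h1 S hS hs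
    obtain ⟨hn, ⟨a, b, _, _, hq, hb⟩, _⟩ := hN k hk μ hμ
    exact hU k (nq μ) w a b μ S hq hb hn.zero hn.one h0 h1 hS hs

end Pool.Agent.Helper68.QCM
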