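import Pool.Agent.Helper68.QC.St4
import Pool.Agent.Helper68.QCM.M_EXS

/-!
# PART M, module IF4: compactness
-/

open MeasureTheory Set Filter Topology Complex
open scoped ContDiff ComplexConjugate ENNReal

namespace Pool.Agent.Helper68.QCM

open Pool.Agent.Helper68.QC

lemma nonneg_of_bel {k : ℝ} {μ : ℂ → ℂ} (h : Bel k μ) : 0 ≤ k := (norm_nonneg _).trans (h.le 0)

open Classical in
/-- the Beltrami coefficient of given derivatives -/
noncomputable def coef (k : ℝ) (a b : ℂ → ℂ) (z : ℂ) : ℂ :=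
  if ‖b z‖ ≤ k * ‖a z‖ then b z / a z else 0

lemma coef_bel {k : ℝ} (hk : 0 ≤ k) {a b : ℂ → ℂ} (ha : Measurable a) (hb : Measurable b) :
    Bel k (coef k a b) := by
  classical
  refine ⟨?_, fun z => ?_⟩
  · unfold coef
    exact Measurable.ite (measurableSet_le hb.norm (ha.norm.const_mul k)) (hb.div ha) measurable_const
  · unfold coef
    split_ifs with h
    · rw [norm_div]
      by_cases h0 : a z = 0
      · simp [h0, hk]
      · rw [div_le_iff₀ (norm_pos_iff.2 h0)]
        exact h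
    · simpa using hk

lemma coef_eq {k : ℝ} {a b : ℂ → ℂ} {z : ℂ} (h : ‖b z‖ ≤ k * ‖a z‖) :
    b z = coef k a b z * a z := by
  unfold coef
  rw [if_pos h]
  by_cases h0 : a z = 0
  · rw [h0] at h ⊢
    simp only [norm_zero, mul_zero] at h
    simp [norm_le_zero_iff.1 h]
  · field_simp

theorem pIF4 : StIF4 := by
  intro hN hG hE hLIM hLQD hU k hk ι F μ hμ
  have hk0 : 0 ≤ k := by
    obtain ⟨i⟩ := F.nonempty_of_neBot
    exact nonneg_of_bel (hμ i)
  obtain ⟨w, hLU⟩ := hLIM ι F (fun i => nq (μ i))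
    (fun R => by
      obtain ⟨M, hM⟩ := hG k hk R
      exact ⟨M, fun i z hz => hM (μ i) (hμ i) z hz⟩)
    (fun R ε hε => by
      obtain ⟨δ, hδ, h⟩ := hE k hk R ε hε
      exact ⟨δ, hδ, fun i p q hp hq hpq => h (μ i) (hμ i) p q hp hq hpq⟩)
  have hn : ∀ i, IsNq (μ i) (nq (μ i)) := fun i => (hN k hk (μ i) (hμ i)).1
  have hw0 : w 0 = 0 := by
    have t := (lu_tendsto hLU 0).1
    simp only [(hn _).zero] at t
    exact tendsto_nhds_unique t tendsto_const_nhds
  have hw1 : w 1 = 1 := by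
    have t := (lu_tendsto hLU 1).1
    simp only [(hn _).one] at t
    exact tendsto_nhds_unique t tendsto_const_nhds
  have hd : ∀ i, ∃ a b : ℂ → ℂ, QD k (nq (μ i)) a b := fun i => by
    obtain ⟨-, ⟨a, b, -, -, h, -⟩, -⟩ := hN k hk (μ i) (hμ i)
    exact ⟨a, b, h⟩
  choose a b hab using hd
  obtain ⟨-, a', b', ham, hbm, hq, -, -⟩ := hLQD k ι F (fun i => nq (μ i)) w a b hk0 hk hab hLU
    (fun R => by
      obtain ⟨M, hM⟩ := hG k hk R
      exact ⟨M, fun i z hz => (hM (μ i) (hμ i) z hz).1⟩)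
  have hν : Bel k (coef k a' b') := coef_bel hk0 ham hbm
  have hs : Sol (coef k a' b') univ w := by
    refine ⟨a', b', hq.wd, ?_⟩
    rw [Measure.restrict_univ]
    filter_upwards [hq.le] with z hz
    exact coef_eq hz
  have hw : w = nq (coef k a' b') := by
    refine hU k hk _ hν w hw0 hw1 ∅ finite_empty ?_
    rwa [compl_empty]
  refine ⟨coef k a' b', hν, fun R => ?_⟩
  rw [← hw]
  exact hLU R

end Pool.Agent.Helper68.QCM
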