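import Pool.Agent.Helper68.QC.St3

/-!
# PART M, module LQD: limits of quasiconformal maps
-/

open MeasureTheory Set Filter Topology Complex
open scoped ContDiff ComplexConjugate ENNReal

namespace Pool.Agent.Helper68.QCM

open Pool.Agent.Helper68.QC

lemma intOn_sq {a : ℂ → ℂ} (ha : L2 univ a) (R : ℝ) :
    IntegrableOn (fun z => ‖a z‖ ^ 2) (Metric.closedBall (0 : ℂ) R) := by
  have h := ha _ (subset_univ _) (isCompact_closedBall (0 : ℂ) R)
  exact (memLp_two_iff_integrable_sq_norm h.1).1 h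

theorem pLQD (hWKL : StWKL) (hLWD : StLWD) (hLJA : StLJA) (hLCV : StLCV) (hLKK : StLKK)
    (hENB : StENB) : StLQD := by
  intro k ι F W w a b hk0 hk hQ hLU hM
  have hEB : EB a b := by
    intro R
    obtain ⟨M, hM'⟩ := hM R
    obtain ⟨B, hB⟩ := hENB k hk0 hk R M
    exact ⟨B, fun i => hB (W i) (a i) (b i) (hQ i) (hM' i)⟩
  refine ⟨hEB, ?_⟩
  have ha : ∀ i, L2 univ (a i) := fun i => (hQ i).wd.l2a
  have hb : ∀ i, L2 univ (b i) := fun i => (hQ i).wd.l2b
  obtain ⟨a', ha'm, ha'2, ha'w⟩ := hWKL ι F a ha (fun R => by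
    obtain ⟨B, hB⟩ := hEB R
    refine ⟨B, fun i => le_trans ?_ (hB i)⟩
    refine setIntegral_mono_on (intOn_sq (ha i) R) ((intOn_sq (ha i) R).add (intOn_sq (hb i) R))
      measurableSet_closedBall fun z _ => ?_
    have := sq_nonneg ‖b i z‖
    linarith)
  obtain ⟨b', hb'm, hb'2, hb'w⟩ := hWKL ι F b hb (fun R => by
    obtain ⟨B, hB⟩ := hEB R
    refine ⟨B, fun i => le_trans ?_ (hB i)⟩
    refine setIntegral_mono_on (intOn_sq (hb i) R) ((intOn_sq (ha i) R).add (intOn_sq (hb i) R))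
      measurableSet_closedBall fun z _ => ?_
    have := sq_nonneg ‖a i z‖
    linarith)
  have hwd : WD univ w a' b' := hLWD ι F (fun i => W i) a b w a' b' (fun i => (hQ i).wd)
    (fun R => (hLU R).1) ha'2 hb'2 ha'w hb'w
  have hJ := hLJA ι F (fun i => W i) a b w a' b' (fun i => (hQ i).wd) hwd
    (fun R => (hLU R).1) hEB ha'w hb'w
  have hle := hLKK k ι F a b a' b' hk0 hk ha hb (fun i => (hQ i).le) ha'2 hb'2 ha'w hJ
  have hcv := hLCV k ι F W a b w a' b' hQ hwd hLU hEB ha'w hb'w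
  exact ⟨a', b', ha'm, hb'm, ⟨hwd, hle, hcv⟩, ha'w, hb'w⟩

end Pool.Agent.Helper68.QCM
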